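import Pool.Agent.Q266.VG.Stm

/-!
# Job FIL (helper129, for project VG of helper266): lower central series and the matrix filtration
-/

set_option autoImplicit false

namespace Pool.Agent.Q129.VG

open Pool.Agent.Q266.VG
open scoped commutatorElement

theorem fil : S_UNI → S_LEAD → S_FIL := by
  rintro ⟨-, hinv, -, -⟩ hlead G _ d ρ hρ n
  induction n with
  | zero =>
    intro w _
    exact hρ w
  | succ n ih =>
    intro w hw
    have hw' : w ∈ Subgroup.closure {x : G | ∃ p ∈ gam G n, ∃ q ∈ (⊤ : Subgroup G), ⁅p, q⁆ = x} := hw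
    refine Subgroup.closure_induction (p := fun w _ => IsN d (n + 1 + 1) ((ρ w : Mat d) - 1))
      ?_ ?_ ?_ ?_ hw'
    · rintro _ ⟨p, hp, q, -, rfl⟩
      have h := hlead d (n + 1) 1 (ρ p) (ρ q) (by omega) le_rfl (ih p hp) (hρ q)
      have h1 : IsN d (n + 1 + 1) (((ρ p : Mat d) - 1) * ((ρ q : Mat d) - 1)) := (ih p hp).mul (hρ q)
      have h2 : IsN d (n + 1 + 1) (((ρ q : Mat d) - 1) * ((ρ p : Mat d) - 1)) :=
        ((hρ q).mul (ih p hp)).mono (by omega)
      have h3 := (h.mono (by omega : n + 1 + 1 ≤ n + 1 + 1 + 1)).add (h1.sub h2)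
      rw [sub_add_cancel] at h3
      rw [map_commutatorElement]
      exact h3
    · rw [map_one, Units.val_one, sub_self]
      exact IsN.zero _ _
    · intro x y _ _ hx hy
      have e : ((ρ (x * y) : (Mat d)ˣ) : Mat d) - 1 =
          ((ρ x : Mat d) - 1) * ((ρ y : Mat d) - 1) + (((ρ x : Mat d) - 1) + ((ρ y : Mat d) - 1)) := by
        rw [map_mul, Units.val_mul]
        noncomm_ring
      rw [e]
      exact ((hx.mul hy).mono (by omega)).add (hx.add hy)
    · intro x _ hx
      rw [map_inv]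
      exact hinv d (ρ x) (n + 1 + 1) (by omega) hx

end Pool.Agent.Q129.VG
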